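import Mathlib

/-!
# A group which is the union of a strictly increasing sequence of subgroups acts on a tree without
fixed points
-/

set_option autoImplicit false

namespace Pool.Agent.X196.FA

open SimpleGraph

section PG

variable {V : Type} (par : V → V) (lev : V → ℕ)

/-- the graph of a parent map -/
def PG (h : ∀ v, lev (par v) = lev v + 1) : SimpleGraph V where
  Adj u v := par u = v ∨ par v = u
  symm := ⟨fun u v h => h.symm⟩
  loopless := ⟨fun v hv => by
    have h1 : par v = v := by
      rcases hv with h | h <;> exact h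
    have h2 := h v
    rw [h1] at h2
    omega⟩

variable {par lev}

lemma PG_acyclic (h : ∀ v, lev (par v) = lev v + 1) : (PG par lev h).IsAcyclic := by
  classical
  intro v c hc
  obtain ⟨u, hu, hmin⟩ : ∃ u ∈ c.support.toFinset, ∀ x ∈ c.support.toFinset, lev u ≤ lev x :=
    Finset.exists_min_image _ _ ⟨v, by simp⟩
  rw [List.mem_toFinset] at hu
  have hc' : (c.rotate u hu).IsCycle := (Walk.isCycle_rotate hu).2 hc
  have hnn : ¬ (c.rotate u hu).Nil := hc'.not_nil
  have hsup : ∀ x, x ∈ (c.rotate u hu).support → lev u ≤ lev x := by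
    intro x hx
    apply hmin
    rw [List.mem_toFinset]
    exact (Walk.mem_support_rotate_iff c u hu).1 hx
  have h1 : (c.rotate u hu).snd = par u := by
    have hadj : (PG par lev h).Adj u (c.rotate u hu).snd := Walk.adj_snd hnn
    rcases hadj with h2 | h2
    · exact h2.symm
    · have h3 : lev u ≤ lev (c.rotate u hu).snd :=
        hsup _ ((c.rotate u hu).getVert_mem_support 1)
      have h4 := h (c.rotate u hu).snd
      rw [h2] at h4
      omega
  have h2 : (c.rotate u hu).penultimate = par u := by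
    have hadj : (PG par lev h).Adj (c.rotate u hu).penultimate u := Walk.adj_penultimate hnn
    rcases hadj with h2 | h2
    · have h3 : lev u ≤ lev (c.rotate u hu).penultimate :=
        hsup _ ((c.rotate u hu).getVert_mem_support ((c.rotate u hu).length - 1))
      have h4 := h (c.rotate u hu).penultimate
      rw [h2] at h4
      omega
    · exact h2.symm
  exact hc'.snd_ne_penultimate (h1.trans h2.symm)

lemma PG_reach (h : ∀ v, lev (par v) = lev v + 1) (n : ℕ) (v : V) :
    (PG par lev h).Reachable v (par^[n] v) := by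
  induction n with
  | zero => exact Reachable.refl _
  | succ n ih =>
    refine ih.trans (Adj.reachable ?_)
    rw [Function.iterate_succ_apply']
    exact Or.inl rfl

end PG

section Chain

variable {H : Type} [Group H] (K : ℕ → Subgroup H)

/-- the vertices -/
abbrev VV : Type := Σ n, H ⧸ K n

lemma smul_VV (h : H) (n : ℕ) (x : H ⧸ K n) : h • (⟨n, x⟩ : VV K) = ⟨n, h • x⟩ := rfl

variable {K} (hmono : ∀ n, K n ≤ K (n + 1))

/-- the parent map -/
def parV (v : VV K) : VV K := ⟨v.1 + 1, Subgroup.quotientMapOfLE (hmono v.1) v.2⟩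

lemma parV_mk (n : ℕ) (x : H) : parV hmono ⟨n, (x : H ⧸ K n)⟩ = ⟨n + 1, (x : H ⧸ K (n + 1))⟩ := rfl

lemma parV_iter (m n : ℕ) (x : H) : (parV hmono)^[m] ⟨n, (x : H ⧸ K n)⟩ =
    ⟨n + m, (x : H ⧸ K (n + m))⟩ := by
  induction m with
  | zero => rfl
  | succ m ih => rw [Function.iterate_succ_apply', ih, parV_mk]; rfl

lemma parV_smul (h : H) (v : VV K) : parV hmono (h • v) = h • parV hmono v := by
  obtain ⟨n, x⟩ := v
  induction x using QuotientGroup.induction_on with
  | H x => rfl

lemma lev_parV (v : VV K) : (parV hmono v).1 = v.1 + 1 := rfl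

/-- a group which is the union of a strictly increasing sequence of subgroups does not have
property (FA) -/
theorem chain_not_FA (hmono : ∀ n, K n ≤ K (n + 1)) (hunion : ∀ h : H, ∃ n, h ∈ K n) (hproper : ∀ n, K n ≠ ⊤) :
    ∃ (V : Type) (_ : MulAction H V) (T : SimpleGraph V), T.IsTree ∧
      (∀ h : H, ∀ x y : V, T.Adj x y → T.Adj (h • x) (h • y)) ∧
      (∀ h : H, ∀ x y : V, T.Adj x y → ¬ (h • x = y ∧ h • y = x)) ∧
      ¬ ∃ v : V, ∀ h : H, h • v = v := by
  have hK : Monotone K := monotone_nat_of_le_succ hmono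
  refine ⟨VV K, inferInstance, PG (parV hmono) (fun v => v.1) (lev_parV hmono), ⟨?_, PG_acyclic _⟩,
    ?_, ?_, ?_⟩
  · refine @Connected.mk _ _ ?_ ⟨⟨0, ((1 : H) : H ⧸ K 0)⟩⟩
    rintro ⟨n, x⟩ ⟨m, y⟩
    induction x using QuotientGroup.induction_on with
    | H x =>
    induction y using QuotientGroup.induction_on with
    | H y =>
    obtain ⟨k, hk⟩ := hunion (x⁻¹ * y)
    have h1 := PG_reach (lev_parV hmono) (m + k) ⟨n, (x : H ⧸ K n)⟩
    have h2 := PG_reach (lev_parV hmono) (n + k) ⟨m, (y : H ⧸ K m)⟩
    rw [parV_iter] at h1 h2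
    have h3 : (⟨n + (m + k), (x : H ⧸ K (n + (m + k)))⟩ : VV K) =
        ⟨m + (n + k), (y : H ⧸ K (m + (n + k)))⟩ := by
      have h4 : n + (m + k) = m + (n + k) := by omega
      rw [h4]
      congr 1
      rw [QuotientGroup.eq]
      exact hK (by omega) hk
    rw [h3] at h1
    exact h1.trans h2.symm
  · intro h x y hxy
    rcases hxy with h1 | h1
    · left
      rw [parV_smul, h1]
    · right
      rw [parV_smul, h1]
  · rintro h x y hxy ⟨h1, h2⟩
    have h3 : (h • x : VV K).1 = x.1 := rfl
    rw [h1] at h3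
    rcases hxy with h4 | h4
    · have h5 := lev_parV hmono x
      rw [h4] at h5
      omega
    · have h5 := lev_parV hmono y
      rw [h4] at h5
      omega
  · rintro ⟨⟨n, x⟩, hx⟩
    induction x using QuotientGroup.induction_on with
    | H x =>
    apply hproper n
    rw [Subgroup.eq_top_iff']
    intro h
    have h1 := hx (x * h * x⁻¹)
    rw [smul_VV] at h1
    have h2 : (x * h * x⁻¹) • (x : H ⧸ K n) = (x : H ⧸ K n) := by
      exact eq_of_heq (Sigma.mk.inj h1).2
    have h3 : ((x * h * x⁻¹ * x : H) : H ⧸ K n) = (x : H ⧸ K n) := h2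
    rw [eq_comm, QuotientGroup.eq] at h3
    have h4 : x⁻¹ * (x * h * x⁻¹ * x) = h := by group
    rwa [h4] at h3

end Chain

end Pool.Agent.X196.FA
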