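import Pool.Agent.Helper884.Golod

/-!
# A two-generated infinite residually finite `p`-group (Golod)
-/

set_option autoImplicit false

namespace Pool.Agent.X196.FA

open Pool.Agent.Helper884.Golod MonoidAlgebra Module

section Core

variable {K : Type} [Field K]

/-- Golod's construction, with a homogeneous ideal. -/
theorem golod_core' (p : ℕ) (hp : 1 < p) (m : ℕ) [Countable K] :
    ∃ I : Ideal (T K), I.IsTwoSided ∧ Infinite (T K ⧸ I) ∧ (∀ f ∈ I, f.coeff 1 = 0) ∧
      (∀ f ∈ I, ∀ n, comp n f ∈ I) ∧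
      ∀ M : Matrix (Fin m) (Fin m) (T K), (∀ a b, M a b ∈ Ge K 1) →
        ∃ e : ℕ, ∀ a b, (M ^ (p ^ e)) a b ∈ I := by
  classical
  obtain ⟨N0, hN0, hN⟩ := exists_N0 (m * m)
  have : Countable (T K) := (coeffEquiv (R := K) (M := FreeMonoid (Fin 2))).countable_iff.mpr
    inferInstance
  -- enumeration
  let X := {M : Matrix (Fin m) (Fin m) (T K) // ∀ a b, M a b ∈ Ge K 1}
  have : Nonempty X := ⟨⟨0, fun a b => by simp⟩⟩
  have : Countable (Matrix (Fin m) (Fin m) (T K)) :=
    (inferInstance : Countable (Fin m → Fin m → T K))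
  obtain ⟨W, hW⟩ := exists_surjective_nat X
  obtain ⟨es, es0, es1⟩ : ∃ es : ℕ → ℕ, es 0 = N0 ∧
      ∀ k, es (k+1) = max (es k + 1) (md ((W k).1 ^ (p^(es k)))) :=
    ⟨fun k => Nat.rec N0 (fun k e => max (e+1) (md ((W k).1 ^ (p^e)))) k, rfl, fun _ => rfl⟩
  have es_mono : StrictMono es := strictMono_nat_of_lt_succ (fun k => by
    rw [es1]; exact lt_of_lt_of_le (Nat.lt_succ_self _) (le_max_left _ _))
  obtain ⟨idx, hidx⟩ : ∃ idx : ℕ → ℕ, ∀ k j, es k ≤ j → j < es (k+1) → idx j = k := by
    refine ⟨fun j => Nat.findGreatest (fun k => es k ≤ j) j, ?_⟩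
    intro k j h1 h2
    have hkj : k ≤ j := (es_mono.le_apply).trans h1
    apply le_antisymm
    · by_contra h3
      push Not at h3
      have h4 := Nat.findGreatest_spec (P := fun k => es k ≤ j) (n := j) (m := k) hkj h1
      have h5 : es (k+1) ≤ es (Nat.findGreatest (fun k => es k ≤ j) j) := es_mono.monotone h3
      omega
    · exact Nat.le_findGreatest (P := fun k => es k ≤ j) hkj h1
  let R : ℕ → Submodule K (T K) := fun j => if j < N0 then ⊥ else
    Submodule.span K (Set.range (fun ab : Fin m × Fin m =>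
      comp j (((W (idx j)).1 ^ (p ^ (es (idx j)))) ab.1 ab.2)))
  have hR : ∀ n, R n ≤ D K n := by
    intro n
    simp only [R]
    split_ifs with h
    · exact bot_le
    · rw [Submodule.span_le]
      rintro _ ⟨ab, rfl⟩
      exact comp_mem n _
  have hR0 : ∀ n, n < N0 → R n = ⊥ := fun n hn => if_pos hn
  have hRr : ∀ n, finrank K (R n) ≤ m * m := by
    intro n
    by_cases h : n < N0
    · rw [hR0 n h]
      have h0 : finrank K (⊥ : Submodule K (T K)) = 0 := finrank_bot K (T K)
      omega
    · have hRn : R n = Submodule.span K (Set.range (fun ab : Fin m × Fin m =>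
          comp n (((W (idx n)).1 ^ (p ^ (es (idx n)))) ab.1 ab.2))) := if_neg h
      rw [hRn]
      have h1 := finrank_range_le_card (R := K) (fun ab : Fin m × Fin m =>
        comp n (((W (idx n)).1 ^ (p ^ (es (idx n)))) ab.1 ab.2))
      rw [Fintype.card_prod, Fintype.card_fin] at h1
      exact h1
  have hlt := Jd_lt (K := K) (D := D K) (R := R) finrank_D D_mul D_zero hR (m*m) N0 hN0 hRr hR0
    (by exact_mod_cast hN)
  refine ⟨It R, inferInstance, infinite_quot R hR hlt, ?_,
    fun f hf n => (le_iSup (Jd (D K) R) n) (comp_mem_Jd R hR f hf n), ?_⟩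
  · intro f hf
    have h1 := comp_mem_Jd R hR f hf 0
    have h2 : Jd (D K) R 0 = ⊥ := rfl
    rw [h2, Submodule.mem_bot] at h1
    have h3 := comp_coeff 0 f 1
    rw [h1] at h3
    simpa using h3.symm
  · intro M hM
    obtain ⟨k, hk⟩ := hW ⟨M, hM⟩
    have hk' : (W k).1 = M := by rw [hk]
    refine ⟨es k, fun a b => ?_⟩
    rw [mem_It]
    have hge : (M ^ (p ^ es k)) a b ∈ Ge K (es k) :=
      Ge_anti (Nat.lt_pow_self hp).le (matrix_pow_Ge M hM _ a b)
    rw [sum_comp ((M ^ (p ^ es k)) a b) (es (k+1)) (by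
      intro w hw
      have h1 := lt_md _ a b w hw
      rw [es1, hk']
      exact lt_of_lt_of_le h1 (le_max_right _ _))]
    apply Submodule.sum_mem
    intro j hj
    rw [Finset.mem_range] at hj
    rcases Nat.lt_or_ge j (es k) with h | h
    · rw [comp_eq_zero_of_Ge hge h]; exact Submodule.zero_mem _
    · have h1 := hidx k j h hj
      have h2 : N0 ≤ j := by
        have := es_mono.monotone (Nat.zero_le k)
        rw [es0] at this
        omega
      have h3 : comp j ((M ^ (p ^ es k)) a b) ∈ R j := by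
        simp only [R]
        rw [if_neg (by omega), h1, hk']
        exact Submodule.subset_span ⟨(a, b), rfl⟩
      obtain ⟨j', rfl⟩ : ∃ j', j = j' + 1 := ⟨j - 1, by omega⟩
      exact (le_iSup (Jd (D K) R) (j'+1)) (R_le D_zero j' h3)

end Core

section Units

variable {K : Type} [Field K]

/-- the ideal of the elements all of whose words have length at least `n` -/
noncomputable def GeI (K : Type) [Field K] (n : ℕ) : Ideal (T K) where
  carrier := Ge K n
  add_mem' := fun ha hb => (Ge K n).add_mem ha hb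
  zero_mem' := (Ge K n).zero_mem
  smul_mem' := fun t f hf => by
    have h0 : t ∈ Ge K 0 := by
      rw [Ge, mem_supported]
      intro w _
      exact Nat.zero_le _
    have h1 := Ge_mul h0 hf
    rwa [zero_add] at h1

instance GeI_twoSided (n : ℕ) : (GeI K n).IsTwoSided :=
  ⟨fun {a} b ha => by
    have h0 : b ∈ Ge K 0 := by
      rw [Ge, mem_supported]
      intro w _
      exact Nat.zero_le _
    have h1 := Ge_mul ha h0
    rwa [add_zero] at h1⟩

lemma sup_twoSided (I J : Ideal (T K)) [I.IsTwoSided] [J.IsTwoSided] : (I ⊔ J).IsTwoSided := by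
  refine ⟨fun {a} b ha => ?_⟩
  obtain ⟨i, hi, j, hj, rfl⟩ := Submodule.mem_sup.1 ha
  rw [add_mul]
  exact Submodule.add_mem_sup (I.mul_mem_right b hi) (J.mul_mem_right b hj)

lemma finite_quot [Finite K] (J : Ideal (T K)) [J.IsTwoSided] (n : ℕ) (hJ : GeI K n ≤ J) :
    Finite (T K ⧸ J) := by
  classical
  have hfin : {w : FreeMonoid (Fin 2) | w.length < n}.Finite := by
    have h1 : {w : FreeMonoid (Fin 2) | w.length < n} ⊆ ⋃ m ∈ Finset.range n,
        {w : FreeMonoid (Fin 2) | w.length = m} := by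
      intro w hw
      simp only [Set.mem_iUnion]
      exact ⟨w.length, Finset.mem_range.2 hw, rfl⟩
    refine Set.Finite.subset (Set.Finite.biUnion (Finset.finite_toSet _) fun m _ => ?_) h1
    exact List.finite_length_eq (Fin 2) m
  have h2 : Module.Finite K (T K ⧸ J) := by
    refine ⟨⟨(hfin.toFinset.image fun w => Ideal.Quotient.mk J (single w (1 : K))), ?_⟩⟩
    rw [eq_top_iff]
    rintro x -
    obtain ⟨f, rfl⟩ := Ideal.Quotient.mk_surjective x
    rw [← sum_coeff_single f, Finsupp.sum, map_sum]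
    refine Submodule.sum_mem _ fun w _ => ?_
    have h3 : single w (f.coeff w) = (f.coeff w) • single w (1 : K) := by simp
    have h4 : Ideal.Quotient.mk J (single w (f.coeff w)) =
        (f.coeff w) • Ideal.Quotient.mk J (single w (1 : K)) := by
      rw [h3]
      exact map_smul (Ideal.Quotient.mkₐ K J) _ _
    rw [h4]
    apply Submodule.smul_mem
    by_cases hw : w.length < n
    · apply Submodule.subset_span
      rw [Finset.mem_coe, Finset.mem_image]
      exact ⟨w, hfin.mem_toFinset.2 hw, rfl⟩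
    · have h5 : single w (1 : K) ∈ J := by
        apply hJ
        show single w (1 : K) ∈ Ge K n
        rw [Ge, mem_supported']
        intro v hv
        rw [MonoidAlgebra.coeff_single, Finsupp.single_apply, if_neg]
        rintro rfl
        exact hv (by simpa using hw)
      rw [Ideal.Quotient.eq_zero_iff_mem.2 h5]
      exact Submodule.zero_mem _
  exact Module.finite_of_finite K

/-- a two-generated infinite residually finite `p`-group -/
theorem exists_G (p : ℕ) [Fact p.Prime] : ∃ (G : Type) (_ : Group G) (a b : G),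
    Subgroup.closure {a, b} = ⊤ ∧ Infinite G ∧ (∀ g : G, ∃ e : ℕ, g ^ (p ^ e) = 1) ∧
    ∀ g : G, g ≠ 1 → ∃ N : Subgroup G, N.Normal ∧ N.index ≠ 0 ∧ g ∉ N := by
  classical
  obtain ⟨I, hI, hinf, h1, hhom, h2⟩ := golod_core' (K := ZMod p) p (Fact.out : p.Prime).one_lt 1
  let A := T (ZMod p) ⧸ I
  let q : T (ZMod p) →ₐ[ZMod p] A := Ideal.Quotient.mkₐ (ZMod p) I
  have hq : Function.Surjective q := Ideal.Quotient.mk_surjective
  have hq0 : ∀ f, q f = 0 ↔ f ∈ I := fun f => Ideal.Quotient.eq_zero_iff_mem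
  have hnt : Nontrivial A := inferInstance
  have hchar : CharP A p :=
    charP_of_injective_algebraMap (algebraMap (ZMod p) A).injective p
  let ε : A →+* ZMod p := Ideal.Quotient.lift I
    (aug : T (ZMod p) →ₐ[ZMod p] ZMod p).toRingHom
    (fun f hf => by
      show aug f = 0
      rw [aug_apply]; exact h1 f hf)
  have hε : ∀ f, ε (q f) = aug f := fun f => rfl
  -- nilpotency
  have hnil : ∀ f ∈ Ge (ZMod p) 1, ∃ e : ℕ, (q f) ^ (p ^ e) = 0 := by
    intro f hf
    obtain ⟨e, he⟩ := h2 (Matrix.of fun _ _ => f) (fun _ _ => hf)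
    refine ⟨e, ?_⟩
    rw [← map_pow, hq0]
    have h3 : ∀ k : ℕ, ((Matrix.of fun _ _ => f : Matrix (Fin 1) (Fin 1) (T (ZMod p))) ^ k) 0 0 =
        f ^ k := by
      intro k
      induction k with
      | zero => simp
      | succ k ih =>
        rw [pow_succ, pow_succ, Matrix.mul_apply, Fin.sum_univ_one, ih]
        rfl
    rw [← h3]
    exact he 0 0
  let xx : Fin 2 → T (ZMod p) := fun i => single (FreeMonoid.of i) (1 : ZMod p)
  have hxx : ∀ i, xx i ∈ Ge (ZMod p) 1 := by
    intro i
    rw [Ge, mem_supported']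
    intro v hv
    show (single (FreeMonoid.of i) (1 : ZMod p)).coeff v = 0
    rw [MonoidAlgebra.coeff_single, Finsupp.single_apply, if_neg]
    rintro rfl
    exact hv (by simp)
  have hunit : ∀ i, IsUnit (1 + q (xx i)) := by
    intro i
    obtain ⟨e, he⟩ := hnil _ (hxx i)
    exact IsNilpotent.isUnit_one_add (r := q (xx i)) ⟨p ^ e, he⟩
  let u : Fin 2 → Aˣ := fun i => (hunit i).unit
  have hu : ∀ i, ((u i : Aˣ) : A) = 1 + q (xx i) := fun i => rfl
  let H : Subgroup Aˣ := Subgroup.closure {u 0, u 1}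
  have hu0 : u 0 ∈ H := Subgroup.subset_closure (by simp)
  have hu1 : u 1 ∈ H := Subgroup.subset_closure (by simp)
  have haug : ∀ g ∈ H, ε (g : A) = 1 := by
    intro g hg
    have h3 : H ≤ (Units.map (ε : A →* ZMod p)).ker := by
      rw [Subgroup.closure_le]
      rintro g (rfl | rfl)
      · show Units.map (ε : A →* ZMod p) (u 0) = 1
        apply Units.ext
        show ε (u 0 : A) = 1
        rw [hu, map_add, map_one, hε, (mem_Ge_one_iff _).1 (hxx 0), add_zero]
      · show Units.map (ε : A →* ZMod p) (u 1) = 1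
        apply Units.ext
        show ε (u 1 : A) = 1
        rw [hu, map_add, map_one, hε, (mem_Ge_one_iff _).1 (hxx 1), add_zero]
    exact congrArg Units.val (h3 hg)
  refine ⟨H, inferInstance, ⟨u 0, hu0⟩, ⟨u 1, hu1⟩, ?_, ?_, ?_, ?_⟩
  · rw [eq_top_iff]
    rintro ⟨g, hg⟩ -
    have h3 := Subgroup.closure_preimage_eq_top ({u 0, u 1} : Set Aˣ)
    have h4 : ((Subgroup.subtype (Subgroup.closure ({u 0, u 1} : Set Aˣ))) ⁻¹' {u 0, u 1} :
        Set (Subgroup.closure ({u 0, u 1} : Set Aˣ))) = {⟨u 0, hu0⟩, ⟨u 1, hu1⟩} := by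
      ext x
      simp [Subtype.ext_iff]
    have h5 : Subgroup.closure ({⟨u 0, hu0⟩, ⟨u 1, hu1⟩} : Set H) = ⊤ := by
      rw [← h4]
      exact h3
    rw [h5]
    trivial
  · have h3 : ¬ (H : Set Aˣ).Finite := by
      refine units_infinite (ZMod p) H (A := A) (fun c => c) (fun _ _ h => h) ?_
      have h4 : ∀ i, q (xx i) ∈ Algebra.adjoin (ZMod p) (Units.val '' (H : Set Aˣ)) := by
        intro i
        have h5 : q (xx i) = ((u i : Aˣ) : A) - 1 := by
          rw [hu]
          simp
        rw [h5]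
        refine Subalgebra.sub_mem _ (Algebra.subset_adjoin ⟨u i, ?_, rfl⟩) (Subalgebra.one_mem _)
        fin_cases i
        · exact hu0
        · exact hu1
      have h5 : Algebra.adjoin (ZMod p) {q (xx 0), q (xx 1)} = ⊤ := by
        have h6 : ({q (xx 0), q (xx 1)} : Set A) = q '' {xx 0, xx 1} := by
          rw [Set.image_pair]
        rw [h6, ← AlgHom.map_adjoin, adjoin_T, Algebra.map_top]
        exact (AlgHom.range_eq_top _).mpr hq
      intro c
      have h6 : Algebra.adjoin (ZMod p) {q (xx 0), q (xx 1)} ≤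
          Algebra.adjoin (ZMod p) (Units.val '' (H : Set Aˣ)) := by
        rw [Algebra.adjoin_le_iff]
        rintro x (rfl | rfl)
        · exact h4 0
        · exact h4 1
      rw [h5] at h6
      exact h6 Algebra.mem_top
    rw [Set.not_finite] at h3
    exact h3.to_subtype
  · rintro ⟨g, hg⟩
    obtain ⟨f, hf⟩ := hq ((g : A) - 1)
    have h3 : f ∈ Ge (ZMod p) 1 := by
      rw [mem_Ge_one_iff, ← hε, hf, map_sub, haug g hg, map_one, sub_self]
    obtain ⟨e, he⟩ := hnil f h3
    refine ⟨e, Subtype.ext (Units.ext ?_)⟩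
    show ((g ^ (p ^ e) : Aˣ) : A) = 1
    rw [Units.val_pow_eq_pow_val]
    have h6 : (g : A) = 1 + ((g : A) - 1) := by abel
    rw [h6, add_pow_char_pow_of_commute p e (Commute.one_left _), ← hf, he, one_pow, add_zero]
  · rintro ⟨g, hg⟩ hg1
    obtain ⟨f, hf⟩ := hq ((g : A) - 1)
    have hfI : f ∉ I := by
      intro h
      rw [← hq0, hf, sub_eq_zero] at h
      exact hg1 (Subtype.ext (Units.ext h))
    obtain ⟨j, hj⟩ : ∃ j, comp j f ∉ I := by
      by_contra hno
      push Not at hno
      apply hfI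
      rw [sum_comp f (f.coeff.support.sup FreeMonoid.length + 1)
        (fun w hw => Nat.lt_succ_of_le (Finset.le_sup (f := FreeMonoid.length) hw))]
      exact Submodule.sum_mem _ fun k _ => hno k
    let J : Ideal (T (ZMod p)) := I ⊔ GeI (ZMod p) (j + 1)
    have hJ2 : J.IsTwoSided := sup_twoSided I (GeI (ZMod p) (j + 1))
    have hfin : Finite (T (ZMod p) ⧸ J) := finite_quot J (j + 1) le_sup_right
    have hfJ : f ∉ J := by
      intro h
      obtain ⟨i, hi, g', hg', hsum⟩ := Submodule.mem_sup.1 h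
      apply hj
      rw [← hsum, map_add, comp_eq_zero_of_Ge (show g' ∈ Ge (ZMod p) (j + 1) from hg')
        (Nat.lt_succ_self j), add_zero]
      exact hhom i hi j
    let π : A →+* (T (ZMod p) ⧸ J) := Ideal.Quotient.factor (le_sup_left : I ≤ J)
    let ψ : H →* (T (ZMod p) ⧸ J)ˣ := (Units.map (π : A →* (T (ZMod p) ⧸ J))).comp H.subtype
    refine ⟨ψ.ker, inferInstance, ?_, ?_⟩
    · have h3 : Finite (H ⧸ ψ.ker) := by
        have h4 : Finite (T (ZMod p) ⧸ J)ˣ := inferInstance
        exact Finite.of_injective _ (QuotientGroup.kerLift_injective ψ)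
      have h4 : ψ.ker.FiniteIndex := Subgroup.finiteIndex_of_finite_quotient
      exact h4.index_ne_zero
    · intro h
      rw [MonoidHom.mem_ker] at h
      have h3 : π (g : A) = 1 := congrArg Units.val h
      have h4 : π ((g : A) - 1) = 0 := by
        rw [map_sub, h3, map_one, sub_self]
      rw [← hf] at h4
      have h5 : Ideal.Quotient.mk J f = 0 := h4
      exact hfJ (Ideal.Quotient.eq_zero_iff_mem.1 h5)

end Units

end Pool.Agent.X196.FA
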