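import Mathlib

/-!
# Countable subgroups closed under countably many functions
-/

set_option autoImplicit false

namespace Pool.Agent.X196.FA

section Hull

variable {S : Type} [Group S] (f : ℕ → S → S) (C : Set S)

/-- the stages of the closure -/
def TT : ℕ → Set S
  | 0 => C ∪ {1}
  | k + 1 => TT k ∪ (fun x => x⁻¹) '' TT k ∪ Set.image2 (fun x y => x * y) (TT k) (TT k) ∪
      ⋃ n, f n '' TT k

lemma TT_countable (hC : C.Countable) (k : ℕ) : (TT f C k).Countable := by
  induction k with
  | zero => exact hC.union (Set.countable_singleton 1)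
  | succ k ih =>
    exact ((ih.union (ih.image _)).union (ih.image2 ih _)).union
      (Set.countable_iUnion fun n => ih.image _)

lemma TT_mono {k l : ℕ} (h : k ≤ l) : TT f C k ⊆ TT f C l := by
  induction l, h using Nat.le_induction with
  | base => exact subset_rfl
  | succ l _ ih => exact ih.trans fun x hx => Or.inl (Or.inl (Or.inl hx))

/-- the closure -/
def hull : Subgroup S where
  carrier := ⋃ k, TT f C k
  one_mem' := Set.mem_iUnion.2 ⟨0, Or.inr rfl⟩
  mul_mem' := by
    intro x y hx hy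
    obtain ⟨k, hk⟩ := Set.mem_iUnion.1 hx
    obtain ⟨l, hl⟩ := Set.mem_iUnion.1 hy
    refine Set.mem_iUnion.2 ⟨max k l + 1, Or.inl (Or.inr ⟨x, TT_mono f C (le_max_left _ _) hk, y,
      TT_mono f C (le_max_right _ _) hl, rfl⟩)⟩
  inv_mem' := by
    intro x hx
    obtain ⟨k, hk⟩ := Set.mem_iUnion.1 hx
    exact Set.mem_iUnion.2 ⟨k + 1, Or.inl (Or.inl (Or.inr ⟨x, hk, rfl⟩))⟩

lemma subset_hull : C ⊆ hull f C := fun _ hx => Set.mem_iUnion.2 ⟨0, Or.inl hx⟩

lemma hull_countable (hC : C.Countable) : (hull f C : Set S).Countable :=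
  Set.countable_iUnion fun k => TT_countable f C hC k

lemma hull_closed (n : ℕ) (x : S) (hx : x ∈ hull f C) : f n x ∈ hull f C := by
  obtain ⟨k, hk⟩ := Set.mem_iUnion.1 hx
  exact Set.mem_iUnion.2 ⟨k + 1, Or.inr (Set.mem_iUnion.2 ⟨n, x, hk, rfl⟩)⟩

/-- In an uncountable group there is a strictly increasing sequence of countable subgroups closed
under a given sequence of functions. -/
theorem exists_chain (hC : C.Countable) (hS : ¬ Countable S) : ∃ L : ℕ → Subgroup S,
    C ⊆ L 0 ∧ (∀ k, L k < L (k + 1)) ∧ (∀ k n x, x ∈ L k → f n x ∈ L k) := by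
  classical
  have key : ∀ D : {D : Subgroup S // (D : Set S).Countable ∧ ∀ n x, x ∈ D → f n x ∈ D},
      ∃ E : {D : Subgroup S // (D : Set S).Countable ∧ ∀ n x, x ∈ D → f n x ∈ D}, D.1 < E.1 := by
    rintro ⟨D, hD, hD'⟩
    have h1 : ∃ s : S, s ∉ D := by
      by_contra h
      push Not at h
      apply hS
      rw [← Set.countable_univ_iff]
      exact hD.mono fun x _ => h x
    obtain ⟨s, hs⟩ := h1
    refine ⟨⟨hull f (D ∪ {s}), hull_countable f _ (hD.union (Set.countable_singleton s)),
      hull_closed f _⟩, ?_⟩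
    refine lt_of_le_of_ne (fun x hx => subset_hull f _ (Or.inl hx)) fun h => hs ?_
    have h2 : s ∈ hull f (D ∪ {s}) := subset_hull f _ (Or.inr rfl)
    have h3 : D = hull f (D ∪ {s}) := h
    rw [← h3] at h2
    exact h2
  choose g hg using key
  let D0 : {D : Subgroup S // (D : Set S).Countable ∧ ∀ n x, x ∈ D → f n x ∈ D} :=
    ⟨hull f C, hull_countable f C hC, hull_closed f C⟩
  refine ⟨fun n => (g^[n] D0).1, subset_hull f C, fun k => ?_, fun k => (g^[k] D0).2.2⟩
  show (g^[k] D0).1 < (g^[k + 1] D0).1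
  rw [Function.iterate_succ_apply']
  exact hg _

end Hull

end Pool.Agent.X196.FA
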