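import Pool.Agent.X196.FA.Pro
import Pool.Agent.X196.FA.Hull

/-!
# The overgroup with the same finite quotients
-/

set_option autoImplicit false

namespace Pool.Agent.X196.FA

open scoped commutatorElement

section Main

variable {G : Type} [Group G]

/-- the coordinate homomorphism of a subgroup of the completion -/
def coor (H : Subgroup (SS G)) (N : II G) : H →* G ⧸ N.1 :=
  (Pi.evalMonoidHom (fun N : II G => G ⧸ N.1) N).comp ((SS G).subtype.comp H.subtype)

lemma coor_apply (H : Subgroup (SS G)) (N : II G) (h : H) : coor H N h = h.1.1 N := rfl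

lemma coor_index (H : Subgroup (SS G)) (N : II G) : (coor H N).ker.index ≠ 0 := by
  rw [Subgroup.index_ker]
  exact Nat.card_pos.ne'

/-- if a finite group has surjective power maps for all primes but `p`, then it is a `p`-group -/
lemma pgroup_of_roots {p : ℕ} [Fact p.Prime] {Q : Type} [Group Q] [Finite Q]
    (h : ∀ l : ℕ, l.Prime → l ≠ p → ∀ x : Q, ∃ y : Q, y ^ l = x) : IsPGroup p Q := by
  have h1 : Nat.card Q = p ^ (Nat.card Q).primeFactorsList.length := by
    apply Nat.eq_prime_pow_of_unique_prime_dvd Nat.card_pos.ne'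
    intro l hl hd
    by_contra hlp
    have hfl : Fact l.Prime := ⟨hl⟩
    obtain ⟨x, hx⟩ := exists_prime_orderOf_dvd_card' l hd
    have hsurj : Function.Surjective fun y : Q => y ^ l := h l hl hlp
    have hinj : Function.Injective fun y : Q => y ^ l := Finite.injective_iff_surjective.2 hsurj
    have h2 : x = 1 := hinj (by
      show x ^ l = 1 ^ l
      rw [one_pow, ← hx, pow_orderOf_eq_one])
    rw [h2, orderOf_one] at hx
    exact hl.one_lt.ne hx
  exact IsPGroup.of_card h1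

theorem exists_H {p : ℕ} [Fact p.Prime] (a b : G) (hgen : Subgroup.closure {a, b} = ⊤) [Infinite G]
    (htor : ∀ g : G, ∃ e, g ^ (p ^ e) = 1)
    (hRF : ∀ g : G, g ≠ 1 → ∃ N : Subgroup G, N.Normal ∧ N.index ≠ 0 ∧ g ∉ N) :
    ∃ (H : Type) (_ : Group H) (u : G →* H) (K : ℕ → Subgroup H),
      (∀ h : H, h ≠ 1 → ∃ M : Subgroup H, M.Normal ∧ M.index ≠ 0 ∧ h ∉ M) ∧
      Function.Injective u ∧
      (∀ N : Subgroup G, N.Normal → N.index ≠ 0 →
        ∃ M : Subgroup H, M.Normal ∧ M.index ≠ 0 ∧ M.comap u ≤ N) ∧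
      (∀ M : Subgroup H, M.Normal → M.index ≠ 0 →
        ∀ h : H, ∃ g : G, ∃ m ∈ M, h = u g * m) ∧
      (∀ n, K n ≤ K (n + 1)) ∧ (∀ h : H, ∃ n, h ∈ K n) ∧ (∀ n, K n ≠ ⊤) := by
  classical
  -- the functions
  have hX : ∀ z : SS G, ∃ x y : SS G, z.1 (cI a b hgen p htor) = 1 →
      ⁅x, iot G a⁆ * ⁅y, iot G b⁆ = z := by
    intro z
    by_cases hz : z.1 (cI a b hgen p htor) = 1
    · obtain ⟨x, y, h⟩ := comm_solve a b hgen p htor z hz
      exact ⟨x, y, fun _ => h⟩
    · exact ⟨1, 1, fun h => absurd h hz⟩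
  choose X Y hXY using hX
  have hR : ∀ (l : ℕ) (z : SS G), ∃ x : SS G, l.Prime → l ≠ p → x ^ l = z := by
    intro l z
    by_cases hl : l.Prime ∧ l ≠ p
    · obtain ⟨x, hx⟩ := root_solve p htor l hl.1 hl.2 z
      exact ⟨x, fun _ _ => hx⟩
    · exact ⟨1, fun h1 h2 => absurd ⟨h1, h2⟩ hl⟩
  choose R hR using hR
  let f : ℕ → SS G → SS G := fun n => if n = 0 then X else if n = 1 then Y else R n
  obtain ⟨L, hL0, hL, hLf⟩ := exists_chain f {iot G a, iot G b}
    (Set.toFinite _).countable (SS_uncountable hRF)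
  have hmono : Monotone L := monotone_nat_of_le_succ fun k => (hL k).le
  let H : Subgroup (SS G) := ⨆ k, L k
  have hmem : ∀ x, x ∈ H ↔ ∃ k, x ∈ L k := fun x =>
    Subgroup.mem_iSup_of_directed hmono.directed_le
  have hHf : ∀ n x, x ∈ H → f n x ∈ H := by
    intro n x hx
    obtain ⟨k, hk⟩ := (hmem x).1 hx
    exact (hmem _).2 ⟨k, hLf k n x hk⟩
  have hHX : ∀ x ∈ H, X x ∈ H := fun x hx => by simpa [f] using hHf 0 x hx
  have hHY : ∀ x ∈ H, Y x ∈ H := fun x hx => by simpa [f] using hHf 1 x hx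
  have hHR : ∀ l : ℕ, l.Prime → ∀ x ∈ H, R l x ∈ H := by
    intro l hl x hx
    have h1 := hHf l x hx
    simp only [f] at h1
    rw [if_neg hl.ne_zero, if_neg hl.ne_one] at h1
    exact h1
  have hran : ∀ g : G, iot G g ∈ H := by
    have h1 : Subgroup.closure {a, b} ≤ H.comap (iot G) := by
      rw [Subgroup.closure_le]
      rintro x (rfl | rfl)
      · exact (hmem _).2 ⟨0, hL0 (Or.inl rfl)⟩
      · exact (hmem _).2 ⟨0, hL0 (Or.inr rfl)⟩
    rw [hgen] at h1
    exact fun g => h1 (Subgroup.mem_top g)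
  let u : G →* H := (iot G).codRestrict H hran
  have hu : ∀ g, (u g).1 = iot G g := fun g => rfl
  refine ⟨H, inferInstance, u, fun n => (L n).subgroupOf H, ?_, ?_, ?_, ?_, ?_, ?_, ?_⟩
  · intro h hh
    have h1 : h.1 ≠ 1 := fun h2 => hh (Subtype.ext h2)
    have h2 : ∃ N, h.1.1 N ≠ 1 := by
      by_contra h3
      push Not at h3
      exact h1 (Subtype.ext (funext h3))
    obtain ⟨N, hN⟩ := h2
    exact ⟨(coor H N).ker, inferInstance, coor_index H N, fun h3 => hN h3⟩
  · intro g g' hg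
    apply iot_injective hRF
    rw [← hu, ← hu, hg]
  · intro N hN hN'
    refine ⟨(coor H ⟨N, hN, hN'⟩).ker, inferInstance, coor_index H _, ?_⟩
    intro g hg
    exact (QuotientGroup.eq_one_iff g).1 hg
  · intro M hM hM' h
    have hfi : M.FiniteIndex := ⟨hM'⟩
    have hfin : Finite (H ⧸ M) := inferInstance
    let π : H →* H ⧸ M := QuotientGroup.mk' M
    have hπ : Function.Surjective π := QuotientGroup.mk'_surjective M
    have hpg : IsPGroup p (H ⧸ M) := by
      apply pgroup_of_roots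
      intro l hl hlp x
      obtain ⟨x, rfl⟩ := hπ x
      refine ⟨π ⟨R l x.1, hHR l hl _ x.2⟩, ?_⟩
      rw [← map_pow]
      congr 1
      exact Subtype.ext (hR l x.1 hl hlp)
    have htop : (π.comp u).range = ⊤ := by
      apply eq_top_of_quotients hpg
      intro K hK hPK hKt _ hKc
      apply hKt
      rw [eq_top_iff]
      intro q _
      obtain ⟨x, rfl⟩ := hπ q
      obtain ⟨g, hg⟩ := QuotientGroup.mk_surjective (x.1.1 (cI a b hgen p htor))
      have hz : ((u g)⁻¹ * x).1.1 (cI a b hgen p htor) = 1 := by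
        show ((g : G ⧸ (cI a b hgen p htor).1))⁻¹ * x.1.1 (cI a b hgen p htor) = 1
        rw [← hg]
        exact inv_mul_cancel _
      have hxy := hXY ((u g)⁻¹ * x).1 hz
      have hx1 := hHX _ ((u g)⁻¹ * x).2
      have hy1 := hHY _ ((u g)⁻¹ * x).2
      have h1 : (⁅(⟨_, hx1⟩ : H), u a⁆ * ⁅(⟨_, hy1⟩ : H), u b⁆ : H) = (u g)⁻¹ * x := Subtype.ext hxy
      have h2 : x = u g * (⁅(⟨_, hx1⟩ : H), u a⁆ * ⁅(⟨_, hy1⟩ : H), u b⁆) := by
        rw [h1, mul_inv_cancel_left]
      rw [h2, map_mul, map_mul, map_commutatorElement, map_commutatorElement]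
      exact K.mul_mem (hPK ⟨g, rfl⟩) (K.mul_mem (hKc _ _) (hKc _ _))
    have h1 : π h ∈ (π.comp u).range := by
      rw [htop]
      trivial
    obtain ⟨g, hg⟩ := h1
    exact ⟨g, (u g)⁻¹ * h, QuotientGroup.eq.1 hg, (mul_inv_cancel_left _ _).symm⟩
  · intro n
    exact fun x hx => (hL n).le hx
  · intro h
    obtain ⟨k, hk⟩ := (hmem h.1).1 h.2
    exact ⟨k, hk⟩
  · intro n hn
    apply (hL n).ne
    apply le_antisymm (hL n).le
    intro x hx
    have h1 : (⟨x, (hmem x).2 ⟨n + 1, hx⟩⟩ : H) ∈ (L n).subgroupOf H := by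
      have h2 : (L n).subgroupOf H = ⊤ := hn
      rw [h2]
      trivial
    exact h1

end Main

end Pool.Agent.X196.FA
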