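import Mathlib

/-!
# Two-generated torsion groups have property (FA) (Serre)
-/

set_option autoImplicit false

namespace Pool.Agent.X196.FA

open SimpleGraph

section Act

variable {G V : Type} [Group G] [MulAction G V] {T : SimpleGraph V}

/-- a group element as a graph homomorphism -/
def gh (hadj : ∀ g : G, ∀ x y : V, T.Adj x y → T.Adj (g • x) (g • y)) (g : G) : T →g T :=
  ⟨fun x => g • x, fun {x y} h => hadj g x y h⟩

lemma gh_apply (hadj : ∀ g : G, ∀ x y : V, T.Adj x y → T.Adj (g • x) (g • y)) (g : G) (x : V) :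
    gh hadj g x = g • x := rfl

lemma sym2_inj (g : G) : Function.Injective (Sym2.map (fun x : V => g • x)) :=
  Sym2.map.injective (MulAction.injective g)

/-- iterating a walk without backtracking -/
lemma iterate_walk (hadj : ∀ g : G, ∀ x y : V, T.Adj x y → T.Adj (g • x) (g • y)) (g : G) (v : V)
    (w : T.Walk v (g • v)) (hne : w.edges ≠ []) (hch : List.IsChain (· ≠ ·) w.edges)
    (hj : w.edges.getLast hne ≠ Sym2.map (fun x : V => g • x) (w.edges.head hne)) (n : ℕ) :
    ∃ W : T.Walk v (g ^ (n + 1) • v), List.IsChain (· ≠ ·) W.edges ∧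
      W.edges.head? = w.edges.head? ∧ W.edges ≠ [] := by
  induction n with
  | zero =>
    refine ⟨w.copy rfl (by rw [zero_add, pow_one]), ?_, ?_, ?_⟩
    · rw [Walk.edges_copy]
      exact hch
    · rw [Walk.edges_copy]
    · rw [Walk.edges_copy]
      exact hne
  | succ n ih =>
    obtain ⟨W, h1, h2, h3⟩ := ih
    obtain ⟨W', hmap⟩ : ∃ W' : T.Walk (g • v) (g • (g ^ (n + 1) • v)),
        W'.edges = W.edges.map (Sym2.map (fun x : V => g • x)) :=
      ⟨W.map (gh hadj g), Walk.edges_map _ _⟩
    refine ⟨(w.append W').copy rfl ?_, ?_, ?_, ?_⟩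
    · rw [← mul_smul, ← pow_succ']
    · rw [Walk.edges_copy, Walk.edges_append, List.isChain_append]
      refine ⟨hch, ?_, ?_⟩
      · rw [hmap, List.isChain_map]
        exact h1.imp fun a b hab h => hab (sym2_inj g h)
      · intro x hx y hy
        rw [hmap, List.head?_map, h2] at hy
        rw [List.getLast?_eq_getLast_of_ne_nil hne] at hx
        rw [List.head?_eq_some_head hne] at hy
        simp only [Option.mem_def, Option.some.injEq, Option.map_some] at hx hy
        rw [← hx, ← hy]
        exact hj
    · rw [Walk.edges_copy, Walk.edges_append, List.head?_append_of_ne_nil _ hne]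
    · rw [Walk.edges_copy, Walk.edges_append]
      intro h
      exact hne (List.append_eq_nil_iff.1 h).1

/-- an element with such a walk has infinite order -/
lemma pow_smul_ne (hT : T.IsTree)
    (hadj : ∀ g : G, ∀ x y : V, T.Adj x y → T.Adj (g • x) (g • y)) (g : G) (v : V)
    (w : T.Walk v (g • v)) (hne : w.edges ≠ []) (hch : List.IsChain (· ≠ ·) w.edges)
    (hj : w.edges.getLast hne ≠ Sym2.map (fun x : V => g • x) (w.edges.head hne)) :
    ¬ IsOfFinOrder g := by
  intro hfin
  obtain ⟨n, hn, hg⟩ := isOfFinOrder_iff_pow_eq_one.1 hfin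
  obtain ⟨m, rfl⟩ : ∃ m, n = m + 1 := ⟨n - 1, by omega⟩
  obtain ⟨W, h1, -, h3⟩ := iterate_walk hadj g v w hne hch hj m
  have h4 : g ^ (m + 1) • v = v := by rw [hg, one_smul]
  have h5 : (W.copy rfl h4).IsPath := by
    rw [hT.isAcyclic.isPath_iff_isChain, Walk.edges_copy]
    exact h1
  rw [Walk.isPath_iff_nil] at h5
  apply h3
  have h6 : (W.copy rfl h4).edges = [] := Walk.edges_eq_nil.2 h5
  rwa [Walk.edges_copy] at h6

/-- an element of finite order acting without inversions fixes a vertex -/
lemma exists_fixed (hT : T.IsTree)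
    (hadj : ∀ g : G, ∀ x y : V, T.Adj x y → T.Adj (g • x) (g • y))
    (hinv : ∀ g : G, ∀ x y : V, T.Adj x y → ¬ (g • x = y ∧ g • y = x)) (g : G)
    (hg : IsOfFinOrder g) : ∃ v : V, g • v = v := by
  classical
  have hV : Nonempty V := hT.connected.nonempty
  obtain ⟨v, hv⟩ : ∃ v : V, ∀ x : V, T.dist v (g • v) ≤ T.dist x (g • x) := by
    have h := WellFounded.min_mem (wellFounded_lt) (Set.range fun v : V => T.dist v (g • v))
      (Set.range_nonempty _)
    obtain ⟨v, hv⟩ := h
    refine ⟨v, fun x => ?_⟩
    have h2 := WellFounded.not_lt_min (wellFounded_lt) (Set.range fun v : V => T.dist v (g • v))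
      (x := T.dist x (g • x)) ⟨x, rfl⟩
    rw [← hv] at h2
    exact not_lt.1 h2
  by_contra hno
  push Not at hno
  obtain ⟨w, hw⟩ := hT.connected.exists_walk_length_eq_dist v (g • v)
  have hwp : w.IsPath := w.isPath_of_length_eq_dist hw
  have hpos : 0 < w.length := by
    rw [hw]
    exact hT.connected.pos_dist_of_ne (hno v).symm
  have hnn : ¬ w.Nil := by
    rw [Walk.not_nil_iff_lt_length]
    exact hpos
  have hne : w.edges ≠ [] := by
    intro h
    have := Walk.length_edges w
    rw [h] at this
    simp at this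
    omega
  have hch := (hT.isAcyclic.isPath_iff_isChain w).1 hwp
  refine pow_smul_ne hT hadj g v w hne hch ?_ hg
  rw [Walk.getLast_edges_eq_mk_penultimate_end, Walk.head_edges_eq_mk_start_snd, Sym2.map_mk]
  intro h
  have h1 : T.Adj w.penultimate (g • v) := Walk.adj_penultimate hnn
  have h2 : w.penultimate = g • w.snd := by
    rcases Sym2.eq_iff.1 h with ⟨h3, -⟩ | ⟨h3, -⟩
    · exact absurd h3 h1.ne
    · exact h3
  rcases Nat.lt_or_ge w.length 2 with hl | hl
  · -- an inversion
    have hl1 : w.length = 1 := by omega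
    have h3 : w.snd = g • v := by
      have := w.tail.length
      have h4 : w.tail.length = 0 := by
        have := Walk.length_tail_add_one hnn
        omega
      exact Walk.eq_of_length_eq_zero h4
    have h5 : w.penultimate = v := by
      have h4 : w.dropLast.length = 0 := by
        have : w.dropLast.length = w.length - 1 := by
          rw [Walk.dropLast, Walk.take_length]
          omega
        omega
      exact (Walk.eq_of_length_eq_zero h4).symm
    rw [h5] at h1
    rw [h5, h3] at h2
    exact hinv g v (g • v) h1 ⟨rfl, h2.symm⟩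
  · have h3 := hv w.snd
    rw [← h2] at h3
    -- the walk from the second to the penultimate vertex
    have h4 : T.dist w.snd w.penultimate ≤ w.length - 2 := by
      have hq : ¬ w.tail.Nil := by
        rw [Walk.not_nil_iff_lt_length]
        have := Walk.length_tail_add_one hnn
        omega
      have hl' := Walk.length_tail_add_one hnn
      have h5 : w.tail.penultimate = w.penultimate := by
        show w.tail.getVert (w.tail.length - 1) = w.getVert (w.length - 1)
        rw [Walk.getVert_tail]
        congr 1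
        omega
      have h6 : T.dist w.snd w.penultimate ≤ w.tail.dropLast.length := by
        have := SimpleGraph.dist_le w.tail.dropLast
        calc T.dist w.snd w.penultimate = T.dist w.snd w.tail.penultimate := by rw [h5]
          _ ≤ w.tail.dropLast.length := this
      have h7 : w.tail.dropLast.length = w.tail.length - 1 := by
        rw [Walk.dropLast, Walk.take_length]
        omega
      have := Walk.length_tail_add_one hnn
      omega
    rw [← hw] at h3
    omega

lemma pow_smul_ne' (hT : T.IsTree)
    (hadj : ∀ g : G, ∀ x y : V, T.Adj x y → T.Adj (g • x) (g • y)) (g : G) (v u : V)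
    (hu : u = g • v) (w : T.Walk v u) (hne : w.edges ≠ []) (hch : List.IsChain (· ≠ ·) w.edges)
    (hj : ∀ x ∈ w.edges.getLast?, ∀ y ∈ w.edges.head?, x ≠ Sym2.map (fun x : V => g • x) y) :
    ¬ IsOfFinOrder g := by
  subst hu
  refine pow_smul_ne hT hadj g v w hne hch ?_
  refine hj _ ?_ _ ?_
  · exact List.getLast?_eq_getLast_of_ne_nil hne
  · exact List.head?_eq_some_head hne

/-- two elements with fixed vertices whose product has finite order have a common fixed vertex -/
lemma exists_common (hT : T.IsTree)
    (hadj : ∀ g : G, ∀ x y : V, T.Adj x y → T.Adj (g • x) (g • y)) (a b : G)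
    (hab : IsOfFinOrder (a * b)) (p0 q0 : V) (hp0 : a • p0 = p0) (hq0 : b • q0 = q0) :
    ∃ v : V, a • v = v ∧ b • v = v := by
  classical
  have hex : ∃ n : ℕ, ∃ q p : V, b • q = q ∧ a • p = p ∧ T.dist q p = n :=
    ⟨_, q0, p0, hq0, hp0, rfl⟩
  obtain ⟨q, p, hq, hp, hd⟩ := Nat.find_spec hex
  have hmin : ∀ q' p' : V, b • q' = q' → a • p' = p' → T.dist q p ≤ T.dist q' p' := by
    intro q' p' hq' hp'
    rw [hd]
    exact Nat.find_min' hex ⟨q', p', hq', hp', rfl⟩
  by_contra hno
  push Not at hno
  have hqp : q ≠ p := by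
    rintro rfl
    exact hno q hp hq
  obtain ⟨w0, hw0⟩ := hT.connected.exists_walk_length_eq_dist q p
  have hwp : w0.IsPath := w0.isPath_of_length_eq_dist hw0
  have hpos : 0 < w0.length := by
    rw [hw0]
    exact hT.connected.pos_dist_of_ne hqp
  have hnn : ¬ w0.Nil := by
    rw [Walk.not_nil_iff_lt_length]
    exact hpos
  have hne : w0.edges ≠ [] := by
    rw [Ne, Walk.edges_eq_nil]
    exact hnn
  have hch := (hT.isAcyclic.isPath_iff_isChain w0).1 hwp
  -- the neighbours
  have hx : b • w0.snd ≠ w0.snd := by
    intro h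
    have h1 := hmin w0.snd p h hp
    have h2 := SimpleGraph.dist_le w0.tail
    have h3 := Walk.length_tail_add_one hnn
    omega
  have hy : a • w0.penultimate ≠ w0.penultimate := by
    intro h
    have h1 := hmin q w0.penultimate hq h
    have h2 := SimpleGraph.dist_le w0.dropLast
    have h3 := Walk.length_dropLast_add_one hnn
    omega
  obtain ⟨w1, hw1⟩ : ∃ w1 : T.Walk p (a • q),
      w1.edges = w0.edges.reverse.map (Sym2.map (fun x : V => a • x)) := by
    obtain ⟨w2, hw2⟩ : ∃ w2 : T.Walk (a • p) (a • q),
        w2.edges = w0.reverse.edges.map (Sym2.map (fun x : V => a • x)) :=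
      ⟨w0.reverse.map (gh hadj a), Walk.edges_map _ _⟩
    refine ⟨w2.copy hp rfl, ?_⟩
    rw [Walk.edges_copy, hw2, Walk.edges_reverse]
  have hhead : w0.edges.head? = some s(q, w0.snd) := by
    rw [List.head?_eq_some_head hne, Walk.head_edges_eq_mk_start_snd]
  have hlast : w0.edges.getLast? = some s(w0.penultimate, p) := by
    rw [List.getLast?_eq_getLast_of_ne_nil hne, Walk.getLast_edges_eq_mk_penultimate_end]
  refine pow_smul_ne' hT hadj (a * b) q (a • q) (by rw [mul_smul, hq]) (w0.append w1) ?_ ?_ ?_ hab
  · rw [Walk.edges_append]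
    intro h
    exact hne (List.append_eq_nil_iff.1 h).1
  · rw [Walk.edges_append, List.isChain_append]
    refine ⟨hch, ?_, ?_⟩
    · rw [hw1, List.isChain_map, List.isChain_reverse]
      exact hch.imp fun x y hxy h => hxy (sym2_inj a h).symm
    · intro x hx' y hy'
      rw [hw1, List.head?_map, List.head?_reverse, hlast] at hy'
      rw [hlast] at hx'
      simp only [Option.mem_def, Option.some.injEq, Option.map_some, Sym2.map_mk] at hx' hy'
      rw [← hx', ← hy', hp]
      intro h
      rcases Sym2.eq_iff.1 h with ⟨h3, -⟩ | ⟨h3, -⟩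
      · exact hy h3.symm
      · exact (Walk.adj_penultimate hnn).ne h3
  · intro x hx' y hy'
    have hw1ne : w1.edges ≠ [] := by
      rw [hw1]
      simpa using hnn
    rw [Walk.edges_append, List.getLast?_append_of_ne_nil _ hw1ne, hw1, List.getLast?_map,
      List.getLast?_reverse, hhead] at hx'
    rw [Walk.edges_append, List.head?_append_of_ne_nil _ hne, hhead] at hy'
    simp only [Option.mem_def, Option.some.injEq, Option.map_some, Sym2.map_mk] at hx' hy'
    rw [← hx', ← hy', Sym2.map_mk]
    intro h
    have h0 : (a * b) • q = a • q := by rw [mul_smul, hq]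
    rw [h0, mul_smul] at h
    have hadj' : T.Adj q w0.snd := Walk.adj_snd hnn
    rcases Sym2.eq_iff.1 h with ⟨-, h3⟩ | ⟨h3, -⟩
    · exact hx (MulAction.injective a h3).symm
    · have h4 : q = b • w0.snd := MulAction.injective a h3
      have h5 : b • q = b • w0.snd := hq.trans h4
      exact hadj'.ne (MulAction.injective b h5)

/-- **Serre.** A torsion group generated by two elements has property (FA). -/
theorem torsion_FA (a b : G) (hgen : Subgroup.closure {a, b} = ⊤)
    (htor : ∀ g : G, IsOfFinOrder g) (hT : T.IsTree)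
    (hadj : ∀ g : G, ∀ x y : V, T.Adj x y → T.Adj (g • x) (g • y))
    (hinv : ∀ g : G, ∀ x y : V, T.Adj x y → ¬ (g • x = y ∧ g • y = x)) :
    ∃ v : V, ∀ g : G, g • v = v := by
  obtain ⟨p0, hp0⟩ := exists_fixed hT hadj hinv a (htor a)
  obtain ⟨q0, hq0⟩ := exists_fixed hT hadj hinv b (htor b)
  obtain ⟨v, hav, hbv⟩ := exists_common hT hadj a b (htor _) p0 q0 hp0 hq0
  refine ⟨v, fun g => ?_⟩
  have h1 : Subgroup.closure {a, b} ≤ MulAction.stabilizer G v := by
    rw [Subgroup.closure_le]
    rintro x (rfl | rfl)
    · exact hav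
    · exact hbv
  rw [hgen] at h1
  exact h1 (Subgroup.mem_top g)

end Act

end Pool.Agent.X196.FA
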