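import Mathlib

/-!
# Commutators in two-generated nilpotent groups
-/

set_option autoImplicit false

namespace Pool.Agent.X196.FA

open scoped commutatorElement

section Bil

variable {R : Type} [Group R] (a b : R) (U : Subgroup R)
  (hc : ∀ u ∈ U, ∀ q r : R, ⁅u, q⁆ * r = r * ⁅u, q⁆)

include hc in
lemma comm_left {u : R} (hu : u ∈ U) (y q : R) : ⁅y * u, q⁆ = ⁅y, q⁆ * ⁅u, q⁆ := by
  have h1 : ⁅y * u, q⁆ = y * ⁅u, q⁆ * y⁻¹ * ⁅y, q⁆ := by
    simp only [commutatorElement_def]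
    group
  rw [h1, ← hc u hu q y, mul_inv_cancel_right, hc u hu q]

include hc in
lemma comm_right {u : R} (hu : u ∈ U) (q r : R) : ⁅u, q * r⁆ = ⁅u, q⁆ * ⁅u, r⁆ := by
  have h1 : ⁅u, q * r⁆ = ⁅u, q⁆ * (q * ⁅u, r⁆ * q⁻¹) := by
    simp only [commutatorElement_def]
    group
  rw [h1, ← hc u hu r q, mul_inv_cancel_right]

include hc in
lemma comm_inv {u : R} (hu : u ∈ U) (q : R) : ⁅u⁻¹, q⁆ = ⁅u, q⁆⁻¹ := by
  have h3 := comm_left U hc (U.inv_mem hu) u q
  rw [mul_inv_cancel, commutatorElement_one_left] at h3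
  exact (inv_eq_of_mul_eq_one_right h3.symm).symm

/-- the subgroup of the products of the two kinds of commutators -/
def WW : Subgroup R where
  carrier := {w | ∃ u₁ ∈ U, ∃ u₂ ∈ U, w = ⁅u₁, a⁆ * ⁅u₂, b⁆}
  one_mem' := ⟨1, U.one_mem, 1, U.one_mem, by
    rw [commutatorElement_one_left, commutatorElement_one_left, mul_one]⟩
  mul_mem' := by
    rintro w w' ⟨u₁, h1, u₂, h2, rfl⟩ ⟨v₁, h3, v₂, h4, rfl⟩
    refine ⟨u₁ * v₁, U.mul_mem h1 h3, u₂ * v₂, U.mul_mem h2 h4, ?_⟩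
    rw [comm_left U hc h3, comm_left U hc h4]
    have h5 := hc u₂ h2 b ⁅v₁, a⁆
    calc ⁅u₁, a⁆ * ⁅u₂, b⁆ * (⁅v₁, a⁆ * ⁅v₂, b⁆) =
        ⁅u₁, a⁆ * (⁅u₂, b⁆ * ⁅v₁, a⁆) * ⁅v₂, b⁆ := by group
      _ = ⁅u₁, a⁆ * (⁅v₁, a⁆ * ⁅u₂, b⁆) * ⁅v₂, b⁆ := by rw [h5]
      _ = _ := by group
  inv_mem' := by
    rintro w ⟨u₁, h1, u₂, h2, rfl⟩
    refine ⟨u₁⁻¹, U.inv_mem h1, u₂⁻¹, U.inv_mem h2, ?_⟩
    rw [comm_inv U hc h1, comm_inv U hc h2, mul_inv_rev]
    have h4 := hc u₂⁻¹ (U.inv_mem h2) b ⁅u₁, a⁆⁻¹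
    rw [comm_inv U hc h2] at h4
    exact h4

include hc in
lemma bil (hgen : Subgroup.closure {a, b} = ⊤) (w : R) (hw : w ∈ ⁅U, (⊤ : Subgroup R)⁆) :
    ∃ u₁ ∈ U, ∃ u₂ ∈ U, w = ⁅u₁, a⁆ * ⁅u₂, b⁆ := by
  have h1 : ⁅U, (⊤ : Subgroup R)⁆ ≤ WW a b U hc := by
    rw [Subgroup.commutator_le]
    intro u hu q _
    have hq : q ∈ Subgroup.closure {a, b} := by
      rw [hgen]
      trivial
    induction hq using Subgroup.closure_induction with
    | mem x hx =>
      rcases hx with rfl | rfl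
      · exact ⟨u, hu, 1, U.one_mem, by rw [commutatorElement_one_left, mul_one]⟩
      · exact ⟨1, U.one_mem, u, hu, by rw [commutatorElement_one_left, one_mul]⟩
    | one =>
      rw [commutatorElement_one_right]
      exact Subgroup.one_mem _
    | mul x y _ _ hx hy =>
      rw [comm_right U hc hu]
      exact Subgroup.mul_mem _ (hx trivial) (hy trivial)
    | inv x _ hx =>
      have h2 := comm_right U hc hu x x⁻¹
      rw [mul_inv_cancel, commutatorElement_one_right] at h2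
      rw [← inv_eq_of_mul_eq_one_right h2.symm]
      exact Subgroup.inv_mem _ (hx trivial)
  exact h1 hw

end Bil

section Nil

variable {Q : Type} [Group Q] (a b : Q) (hgen : Subgroup.closure {a, b} = ⊤)

include hgen in
lemma comm_mod (n : ℕ) : ∀ c ∈ (⊤ : Subgroup Q).lowerCentralSeries 1, ∃ y₁ y₂ w : Q,
    w ∈ (⊤ : Subgroup Q).lowerCentralSeries (n + 1) ∧ c = ⁅y₁, a⁆ * ⁅y₂, b⁆ * w := by
  induction n with
  | zero =>
    intro c hc
    exact ⟨1, 1, c, hc, by rw [commutatorElement_one_left, commutatorElement_one_left]; group⟩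
  | succ n ih =>
    intro c hc
    obtain ⟨y₁, y₂, w, hw, rfl⟩ := ih c hc
    let L : Subgroup Q := (⊤ : Subgroup Q).lowerCentralSeries (n + 2)
    have hL : L.Normal := inferInstance
    let π : Q →* Q ⧸ L := QuotientGroup.mk' L
    let U : Subgroup (Q ⧸ L) := ((⊤ : Subgroup Q).lowerCentralSeries n).map π
    have hcU : ∀ u ∈ U, ∀ q r : Q ⧸ L, ⁅u, q⁆ * r = r * ⁅u, q⁆ := by
      rintro _ ⟨u, hu, rfl⟩ q r
      obtain ⟨q, rfl⟩ := QuotientGroup.mk'_surjective L q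
      obtain ⟨r, rfl⟩ := QuotientGroup.mk'_surjective L r
      have h1 : ⁅u, q⁆ ∈ (⊤ : Subgroup Q).lowerCentralSeries (n + 1) :=
        Subgroup.commutator_mem_commutator hu (Subgroup.mem_top q)
      have h2 : ⁅⁅u, q⁆, r⁆ ∈ L := Subgroup.commutator_mem_commutator h1 (Subgroup.mem_top r)
      have h3 : π ⁅⁅u, q⁆, r⁆ = 1 := (QuotientGroup.eq_one_iff _).2 h2
      rw [map_commutatorElement, map_commutatorElement, commutatorElement_eq_one_iff_mul_comm] at h3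
      exact h3
    have hgen' : Subgroup.closure {π a, π b} = ⊤ := by
      rw [← Set.image_pair, ← MonoidHom.map_closure, hgen, ← MonoidHom.range_eq_map]
      exact MonoidHom.range_eq_top.2 (QuotientGroup.mk'_surjective L)
    have hw' : π w ∈ ⁅U, (⊤ : Subgroup (Q ⧸ L))⁆ := by
      have h1 : w ∈ ⁅(⊤ : Subgroup Q).lowerCentralSeries n, (⊤ : Subgroup Q)⁆ := hw
      have h2 : π w ∈ (⁅(⊤ : Subgroup Q).lowerCentralSeries n, (⊤ : Subgroup Q)⁆).map π := ⟨w, h1, rfl⟩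
      rw [Subgroup.map_commutator] at h2
      exact Subgroup.commutator_mono le_rfl le_top h2
    obtain ⟨_, ⟨v₁, hv₁, rfl⟩, _, ⟨v₂, hv₂, rfl⟩, hv⟩ := bil (π a) (π b) U hcU hgen' (π w) hw'
    have h3 : π (⁅y₁, a⁆ * ⁅y₂, b⁆ * w) = π (⁅y₁ * v₁, a⁆ * ⁅y₂ * v₂, b⁆) := by
      rw [map_mul, hv, map_mul, map_mul, map_commutatorElement, map_commutatorElement,
        map_commutatorElement, map_commutatorElement, map_mul, map_mul,
        comm_left U hcU ⟨v₁, hv₁, rfl⟩, comm_left U hcU ⟨v₂, hv₂, rfl⟩]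
      have h4 := hcU (π v₁) ⟨v₁, hv₁, rfl⟩ (π a) ⁅π y₂, π b⁆
      calc ⁅π y₁, π a⁆ * ⁅π y₂, π b⁆ * (⁅π v₁, π a⁆ * ⁅π v₂, π b⁆) =
          ⁅π y₁, π a⁆ * (⁅π y₂, π b⁆ * ⁅π v₁, π a⁆) * ⁅π v₂, π b⁆ := by group
        _ = ⁅π y₁, π a⁆ * (⁅π v₁, π a⁆ * ⁅π y₂, π b⁆) * ⁅π v₂, π b⁆ := by rw [h4]
        _ = _ := by group
    refine ⟨y₁ * v₁, y₂ * v₂, (⁅y₁ * v₁, a⁆ * ⁅y₂ * v₂, b⁆)⁻¹ * (⁅y₁, a⁆ * ⁅y₂, b⁆ * w), ?_, ?_⟩
    · exact QuotientGroup.eq.1 h3.symm
    · group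

include hgen in
/-- in a two-generated nilpotent group every element of the commutator subgroup is a product
of two commutators with the generators -/
theorem comm_eq [Group.IsNilpotent Q] : ∀ c ∈ commutator Q, ∃ y₁ y₂ : Q,
    c = ⁅y₁, a⁆ * ⁅y₂, b⁆ := by
  intro c hc
  obtain ⟨n, hn⟩ := Subgroup.nilpotent_iff_lowerCentralSeries.1 (inferInstance : Group.IsNilpotent Q)
  have hc' : c ∈ (⊤ : Subgroup Q).lowerCentralSeries 1 := by
    rw [Subgroup.top_lowerCentralSeries_one]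
    exact hc
  obtain ⟨y₁, y₂, w, hw, h⟩ := comm_mod a b hgen n c hc'
  have h1 : (⊤ : Subgroup Q).lowerCentralSeries (n + 1) ≤
      (⊤ : Subgroup Q).lowerCentralSeries n :=
    Subgroup.lowerCentralSeries_antitone _ (Nat.le_succ n)
  have h2 := h1 hw
  rw [hn, Subgroup.mem_bot] at h2
  exact ⟨y₁, y₂, by rw [h, h2, mul_one]⟩

end Nil

section Max

/-- A subgroup of a finite `p`-group which is everything modulo commutators and `p`-th powers is
everything. -/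
theorem eq_top_of_quotients {p : ℕ} [Fact p.Prime] {Q : Type} [Group Q] [Finite Q]
    (hQ : IsPGroup p Q) (P : Subgroup Q)
    (h : ∀ K : Subgroup Q, K.Normal → P ≤ K → K ≠ ⊤ → (∀ x : Q, x ^ p ∈ K) →
      (∀ x y : Q, ⁅x, y⁆ ∈ K) → False) : P = ⊤ := by
  by_contra hP
  have hnil : Group.IsNilpotent Q := hQ.isNilpotent
  obtain ⟨K, hK, hPK⟩ := (eq_top_or_exists_le_coatom P).resolve_left hP
  have hKn : K.Normal := Subgroup.NormalizerCondition.normal_of_coatom K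
    Group.normalizerCondition_of_isNilpotent hK
  have hR : IsPGroup p (Q ⧸ K) := hQ.to_quotient K
  have hnt : Nontrivial (Q ⧸ K) := QuotientGroup.nontrivial_iff.2 hK.1
  obtain ⟨z, hz⟩ : ∃ z : Q ⧸ K, orderOf z = p := by
    apply exists_prime_orderOf_dvd_card' p
    exact hR.card_eq_or_dvd.resolve_left (Finite.one_lt_card.ne')
  have hz1 : z ≠ 1 := by
    rintro rfl
    rw [orderOf_one] at hz
    exact (Fact.out : p.Prime).one_lt.ne hz
  have htop : Subgroup.zpowers z = ⊤ := by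
    have h1 : K ≤ (Subgroup.zpowers z).comap (QuotientGroup.mk' K) := by
      intro x hx
      rw [Subgroup.mem_comap]
      have : QuotientGroup.mk' K x = 1 := (QuotientGroup.eq_one_iff x).2 hx
      rw [this]
      exact Subgroup.one_mem _
    have h2 : (Subgroup.zpowers z).comap (QuotientGroup.mk' K) = ⊤ := by
      apply hK.2
      refine lt_of_le_of_ne h1 fun h3 => hz1 ?_
      obtain ⟨x, rfl⟩ := QuotientGroup.mk'_surjective K z
      have h4 : x ∈ (Subgroup.zpowers (QuotientGroup.mk' K x)).comap (QuotientGroup.mk' K) :=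
        Subgroup.mem_zpowers _
      rw [← h3] at h4
      exact (QuotientGroup.eq_one_iff x).2 h4
    rw [eq_top_iff]
    intro y _
    obtain ⟨x, rfl⟩ := QuotientGroup.mk'_surjective K y
    have h3 : x ∈ (Subgroup.zpowers z).comap (QuotientGroup.mk' K) := by
      rw [h2]
      trivial
    exact h3
  refine h K hKn hPK hK.1 ?_ ?_
  · intro x
    rw [← QuotientGroup.eq_one_iff]
    have h1 : QuotientGroup.mk' K x ∈ Subgroup.zpowers z := by
      rw [htop]
      trivial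
    obtain ⟨k, hk⟩ := h1
    have h2 : (QuotientGroup.mk' K x) ^ p = 1 := by
      rw [← hk, ← zpow_natCast, zpow_comm, zpow_natCast, ← hz, pow_orderOf_eq_one, one_zpow]
    exact h2
  · intro x y
    rw [← QuotientGroup.eq_one_iff]
    have h1 : QuotientGroup.mk' K x ∈ Subgroup.zpowers z := by
      rw [htop]
      trivial
    have h2 : QuotientGroup.mk' K y ∈ Subgroup.zpowers z := by
      rw [htop]
      trivial
    obtain ⟨k, hk⟩ := h1
    obtain ⟨l, hl⟩ := h2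
    have h3 : QuotientGroup.mk' K ⁅x, y⁆ = 1 := by
      rw [map_commutatorElement, commutatorElement_eq_one_iff_mul_comm, ← hk, ← hl]
      exact zpow_mul_comm z k l
    exact h3

end Max

end Pool.Agent.X196.FA
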