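import Pool.Agent.X196.FA.PG

/-!
# The profinite completion of a group, as a group of coherent families
-/

set_option autoImplicit false

namespace Pool.Agent.X196.FA

open scoped commutatorElement

section Pro

variable (G : Type) [Group G]

/-- the normal subgroups of finite index -/
abbrev II : Type := {N : Subgroup G // N.Normal ∧ N.index ≠ 0}

instance instN (N : II G) : N.1.Normal := N.2.1

instance instF (N : II G) : N.1.FiniteIndex := ⟨N.2.2⟩

instance instT (N : II G) : TopologicalSpace (G ⧸ N.1) := ⊥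

instance instD (N : II G) : DiscreteTopology (G ⧸ N.1) := ⟨rfl⟩

/-- the coherent families -/
def SS : Subgroup (∀ N : II G, G ⧸ N.1) where
  carrier := {s | ∀ N M : II G, N.1 ≤ M.1 → ∀ g : G, s N = (g : G ⧸ N.1) → s M = (g : G ⧸ M.1)}
  one_mem' := by
    intro N M h g hg
    have h1 : (1 : G ⧸ N.1) = (g : G ⧸ N.1) := hg
    have h2 : g ∈ N.1 := (QuotientGroup.eq_one_iff g).1 h1.symm
    exact ((QuotientGroup.eq_one_iff g).2 (h h2)).symm
  mul_mem' := by
    intro s t hs ht N M h g hg
    obtain ⟨g1, hg1⟩ := QuotientGroup.mk_surjective (s N)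
    obtain ⟨g2, hg2⟩ := QuotientGroup.mk_surjective (t N)
    have h1 := hs N M h g1 hg1.symm
    have h2 := ht N M h g2 hg2.symm
    have h3 : ((g1 * g2 : G) : G ⧸ N.1) = (g : G ⧸ N.1) := by
      rw [← hg, QuotientGroup.mk_mul, hg1, hg2]
      rfl
    have h4 : ((g1 * g2 : G) : G ⧸ M.1) = (g : G ⧸ M.1) :=
      QuotientGroup.eq.2 (h (QuotientGroup.eq.1 h3))
    rw [← h4, QuotientGroup.mk_mul, ← h1, ← h2]
    rfl
  inv_mem' := by
    intro s hs N M h g hg
    obtain ⟨g1, hg1⟩ := QuotientGroup.mk_surjective (s N)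
    have h1 := hs N M h g1 hg1.symm
    have h3 : ((g1⁻¹ : G) : G ⧸ N.1) = (g : G ⧸ N.1) := by
      rw [← hg, QuotientGroup.mk_inv, hg1]
      rfl
    have h4 : ((g1⁻¹ : G) : G ⧸ M.1) = (g : G ⧸ M.1) :=
      QuotientGroup.eq.2 (h (QuotientGroup.eq.1 h3))
    rw [← h4, QuotientGroup.mk_inv, ← h1]
    rfl

lemma SS_closed : IsClosed (SS G : Set (∀ N : II G, G ⧸ N.1)) := by
  have h1 : (SS G : Set (∀ N : II G, G ⧸ N.1)) = ⋂ (N : II G) (M : II G) (_ : N.1 ≤ M.1) (g : G),
      ({s | s N = (g : G ⧸ N.1)}ᶜ ∪ {s | s M = (g : G ⧸ M.1)}) := by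
    ext s
    simp only [Set.mem_iInter, Set.mem_union, Set.mem_compl_iff, Set.mem_ofPred_eq]
    constructor
    · intro h N M hNM g
      by_cases h2 : s N = (g : G ⧸ N.1)
      · exact Or.inr (h N M hNM g h2)
      · exact Or.inl h2
    · intro h N M hNM g h2
      exact (h N M hNM g).resolve_left (fun h3 => h3 h2)
  rw [h1]
  refine isClosed_iInter fun N => isClosed_iInter fun M => isClosed_iInter fun _ =>
    isClosed_iInter fun g => IsClosed.union ?_ ?_
  · rw [isClosed_compl_iff]
    exact IsOpen.preimage (f := fun s : ∀ N : II G, G ⧸ N.1 => s N) (continuous_apply N)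
      (isOpen_discrete ({(g : G ⧸ N.1)} : Set (G ⧸ N.1)))
  · exact IsClosed.preimage (f := fun s : ∀ N : II G, G ⧸ N.1 => s M) (continuous_apply M)
      (isClosed_discrete ({(g : G ⧸ M.1)} : Set (G ⧸ M.1)))

instance instCompact : CompactSpace (SS G) :=
  isCompact_iff_compactSpace.1 (SS_closed G).isCompact

instance instTG (N : II G) : IsTopologicalGroup (G ⧸ N.1) := inferInstance

instance instTG' : IsTopologicalGroup (SS G) := inferInstance

/-- the natural map -/
def iot : G →* SS G where
  toFun g := ⟨fun N => (g : G ⧸ N.1), fun _ _ h _ hx =>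
    QuotientGroup.eq.2 (h (QuotientGroup.eq.1 hx))⟩
  map_one' := rfl
  map_mul' _ _ := rfl

variable {G}

lemma iot_apply (g : G) (N : II G) : (iot G g).1 N = (g : G ⧸ N.1) := rfl

lemma SS_coh (s : SS G) {N M : II G} (h : N.1 ≤ M.1) {g : G} (hg : s.1 N = (g : G ⧸ N.1)) :
    s.1 M = (g : G ⧸ M.1) := s.2 N M h g hg

/-- the intersection of two members -/
def inf' (N M : II G) : II G := ⟨N.1 ⊓ M.1, inferInstance, Subgroup.index_inf_ne_zero N.2.2 M.2.2⟩

lemma inf'_le_left (N M : II G) : (inf' N M).1 ≤ N.1 := inf_le_left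

lemma inf'_le_right (N M : II G) : (inf' N M).1 ≤ M.1 := inf_le_right

lemma iot_injective (hRF : ∀ g : G, g ≠ 1 → ∃ N : Subgroup G, N.Normal ∧ N.index ≠ 0 ∧ g ∉ N) :
    Function.Injective (iot G) := by
  rw [injective_iff_map_eq_one]
  intro g hg
  by_contra h
  obtain ⟨N, h1, h2, h3⟩ := hRF g h
  apply h3
  have h4 : (iot G g).1 ⟨N, h1, h2⟩ = 1 := by
    rw [hg]
    rfl
  exact (QuotientGroup.eq_one_iff g).1 h4

/-- a compact argument: an equation solvable in all finite quotients is solvable -/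
lemma solve (F : SS G → SS G → SS G) (hF : Continuous fun q : SS G × SS G => F q.1 q.2) (z : SS G)
    (N₀ : II G)
    (h : ∀ N : II G, N.1 ≤ N₀.1 → ∃ x y : SS G, (F x y).1 N = z.1 N) :
    ∃ x y : SS G, F x y = z := by
  let E : II G → Set (SS G × SS G) := fun N => {q | (F q.1 q.2).1 N = z.1 N}
  have hmono : ∀ N M : II G, N.1 ≤ M.1 → E N ⊆ E M := by
    intro N M hNM q hq
    have hq' : (F q.1 q.2).1 N = z.1 N := hq
    obtain ⟨g, hg⟩ := QuotientGroup.mk_surjective (z.1 N)
    have h1 := SS_coh z hNM hg.symm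
    rw [← hg] at hq'
    have h2 := SS_coh (F q.1 q.2) hNM hq'
    show (F q.1 q.2).1 M = z.1 M
    rw [h1, h2]
  have hcont : ∀ N : II G, Continuous fun q : SS G × SS G => (F q.1 q.2).1 N := fun N =>
    (continuous_apply N).comp (continuous_subtype_val.comp hF)
  have hcl : ∀ N : II G, IsClosed (E N) := fun N =>
    (isClosed_discrete {z.1 N}).preimage (hcont N)
  have hne : Nonempty (II G) := ⟨N₀⟩
  obtain ⟨q, hq⟩ := IsCompact.nonempty_iInter_of_directed_nonempty_isCompact_isClosed E
    (fun N M => ⟨inf' N M, hmono _ _ (inf'_le_left N M), hmono _ _ (inf'_le_right N M)⟩)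
    (fun N => by
      obtain ⟨x, y, hxy⟩ := h (inf' N N₀) (inf'_le_right N N₀)
      exact ⟨(x, y), hmono _ _ (inf'_le_left N N₀) hxy⟩)
    (fun N => (hcl N).isCompact) hcl
  refine ⟨q.1, q.2, Subtype.ext (funext fun N => ?_)⟩
  exact Set.mem_iInter.1 hq N

section two

variable (a b : G) (hgen : Subgroup.closure {a, b} = ⊤) (p : ℕ) [Fact p.Prime]
  (htor : ∀ g : G, ∃ e, g ^ (p ^ e) = 1)

omit [Fact p.Prime] in
include htor in
lemma quot_pgroup (N : II G) : IsPGroup p (G ⧸ N.1) := by
  intro x
  obtain ⟨g, rfl⟩ := QuotientGroup.mk_surjective x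
  obtain ⟨e, he⟩ := htor g
  exact ⟨e, by rw [← QuotientGroup.mk_pow, he, QuotientGroup.mk_one]⟩

include hgen htor in
lemma index_comm : (commutator G).index ≠ 0 := by
  have hfg : Group.FG G := by
    rw [Group.fg_iff]
    exact ⟨{a, b}, hgen, Set.toFinite _⟩
  have h1 : Finite (Abelianization G) := by
    have h2 : Group.FG (Abelianization G) :=
      Group.fg_of_surjective (f := Abelianization.of) QuotientGroup.mk_surjective
    apply CommGroup.finite_of_fg_isMulTorsion
    intro x
    obtain ⟨g, hg⟩ : ∃ g : G, Abelianization.of g = x := QuotientGroup.mk_surjective x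
    obtain ⟨e, he⟩ := htor g
    refine isOfFinOrder_iff_pow_eq_one.2 ⟨p ^ e, pow_pos (Fact.out : p.Prime).pos e, ?_⟩
    rw [← hg, ← map_pow, he, map_one]
  have h3 : Finite (G ⧸ commutator G) := h1
  exact Subgroup.index_ne_zero_of_finite

/-- the commutator subgroup as a member -/
def cI : II G := ⟨commutator G, inferInstance, index_comm a b hgen p htor⟩

/-- elements trivial in the abelianization are products of two commutators with the generators -/
theorem comm_solve (z : SS G) (hz : z.1 (cI a b hgen p htor) = 1) :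
    ∃ x y : SS G, ⁅x, iot G a⁆ * ⁅y, iot G b⁆ = z := by
  apply solve (fun x y => ⁅x, iot G a⁆ * ⁅y, iot G b⁆) ?_ z (cI a b hgen p htor) ?_
  · simp only [commutatorElement_def]
    fun_prop
  · intro N hN
    obtain ⟨g, hg⟩ := QuotientGroup.mk_surjective (z.1 N)
    have h1 := SS_coh z hN hg.symm
    rw [hz] at h1
    have h2 : g ∈ commutator G := (QuotientGroup.eq_one_iff g).1 h1.symm
    have hfin : Finite (G ⧸ N.1) := inferInstance
    have hnil : Group.IsNilpotent (G ⧸ N.1) := (quot_pgroup p htor N).isNilpotent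
    have hgen' : Subgroup.closure {(a : G ⧸ N.1), (b : G ⧸ N.1)} = ⊤ := by
      have h3 := congrArg (Subgroup.map (QuotientGroup.mk' N.1)) hgen
      rw [MonoidHom.map_closure, Set.image_pair, ← MonoidHom.range_eq_map,
        MonoidHom.range_eq_top.2 (QuotientGroup.mk'_surjective N.1)] at h3
      exact h3
    have h4 : (g : G ⧸ N.1) ∈ commutator (G ⧸ N.1) := by
      have h5 : QuotientGroup.mk' N.1 g ∈ (commutator G).map (QuotientGroup.mk' N.1) := ⟨g, h2, rfl⟩
      rw [commutator_def, Subgroup.map_commutator] at h5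
      exact Subgroup.commutator_mono le_top le_top h5
    obtain ⟨y₁, y₂, hy⟩ := comm_eq (a : G ⧸ N.1) (b : G ⧸ N.1) hgen' _ h4
    obtain ⟨y₁, rfl⟩ := QuotientGroup.mk_surjective y₁
    obtain ⟨y₂, rfl⟩ := QuotientGroup.mk_surjective y₂
    refine ⟨iot G y₁, iot G y₂, ?_⟩
    rw [← hg, hy]
    rfl

include htor in
/-- roots of degree prime to `p` -/
theorem root_solve (l : ℕ) (hl : l.Prime) (hlp : l ≠ p) (z : SS G) : ∃ x : SS G, x ^ l = z := by
  have hcop : p.Coprime l := (Nat.coprime_primes Fact.out hl).2 hlp.symm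
  have hex : ∀ N : II G, ∃ x : G ⧸ N.1, x ^ l = z.1 N := fun N =>
    ((quot_pgroup p htor N).powEquiv hcop).surjective (z.1 N)
  choose x hx using hex
  refine ⟨⟨x, ?_⟩, Subtype.ext (funext hx)⟩
  intro N M h g hg
  apply ((quot_pgroup p htor M).powEquiv hcop).injective
  show (x M) ^ l = (g : G ⧸ M.1) ^ l
  rw [hx M, ← QuotientGroup.mk_pow]
  apply SS_coh z h
  rw [← hx N, hg, QuotientGroup.mk_pow]

end two

/-- the profinite completion of an infinite residually finite group is uncountable -/
theorem SS_uncountable [Infinite G]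
    (hRF : ∀ g : G, g ≠ 1 → ∃ N : Subgroup G, N.Normal ∧ N.index ≠ 0 ∧ g ∉ N) :
    ¬ Countable (SS G) := by
  intro hc
  have h1 : (⋃ s : SS G, ({s} : Set (SS G))) = Set.univ := by
    ext s
    simp
  obtain ⟨s, hs⟩ := nonempty_interior_of_iUnion_of_closed (fun s : SS G => isClosed_singleton) h1
  have h2 : IsOpen ({s} : Set (SS G)) := by
    obtain ⟨t, ht⟩ := hs
    have h3 : t ∈ ({s} : Set (SS G)) := interior_subset ht
    rw [Set.mem_singleton_iff] at h3
    have h4 : interior ({s} : Set (SS G)) = {s} :=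
      Set.Subset.antisymm interior_subset (by
        intro x hx
        rw [Set.mem_singleton_iff] at hx
        rw [hx, ← h3]
        rw [← h3] at ht
        exact ht)
    rw [← h4]
    exact isOpen_interior
  have h3 : DiscreteTopology (SS G) := by
    apply discreteTopology_of_isOpen_singleton_one
    have h4 : ({1} : Set (SS G)) = (fun x => s * x) ⁻¹' {s} := by
      ext x
      simp
    rw [h4]
    exact h2.preimage (continuous_const.mul continuous_id)
  have h4 : Finite (SS G) := finite_of_compact_of_discrete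
  have h5 : Finite G := Finite.of_injective (iot G) (iot_injective hRF)
  exact not_finite G

end Pro

end Pool.Agent.X196.FA
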